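import Mathlib

/-!
# Sets whose differences with their translates escape have infinite variation at infinity
-/

open MeasureTheory Set Filter Topology Metric
open scoped ENNReal Real

namespace Pool.MPb9430d.Rough

/-- The symmetric difference of `E` and `E + v`. -/
def dif (E : Set ℂ) (v : ℂ) : Set ℂ := symmDiff E ((fun x => x - v) ⁻¹' E)

theorem measurableSet_dif {E : Set ℂ} (hE : MeasurableSet E) (v : ℂ) :
    MeasurableSet (dif E v) :=
  hE.symmDiff (hE.preimage (measurable_sub_const v))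

theorem volume_preimage_sub (A : Set ℂ) (v : ℂ) :
    volume ((fun x => x - v) ⁻¹' A) = volume A := by
  have h2 : (fun x : ℂ => x - v) = fun x => x + (-v) := by ext x; ring
  rw [h2, measure_preimage_add_right]

theorem volume_dif_ne_top {E : Set ℂ} (hfin : volume E ≠ ∞) (v : ℂ) : volume (dif E v) ≠ ∞ := by
  have h1 : dif E v ⊆ E ∪ (fun x => x - v) ⁻¹' E := by
    rintro x (h | h)
    · exact Or.inl h.1
    · exact Or.inr h.1
  refine ne_top_of_le_ne_top ?_ ((measure_mono h1).trans (measure_union_le _ _))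
  rw [volume_preimage_sub]
  exact ENNReal.add_ne_top.2 ⟨hfin, hfin⟩

theorem dif_add (E : Set ℂ) (v w : ℂ) :
    dif E (v + w) ⊆ dif E v ∪ (fun x => x - v) ⁻¹' (dif E w) := by
  intro x hx
  by_cases h1 : x ∈ dif E v
  · exact Or.inl h1
  · right
    have h2 : x ∈ E ↔ x - v ∈ E := by
      by_contra hcon
      apply h1
      by_cases h3 : x ∈ E
      · exact Or.inl ⟨h3, fun h4 => hcon ⟨fun _ => h4, fun _ => h3⟩⟩
      · refine Or.inr ⟨?_, h3⟩
        by_contra h4
        exact hcon ⟨fun h5 => absurd h5 h3, fun h5 => absurd h5 h4⟩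
    have h5 : x - (v + w) = x - v - w := by ring
    rcases hx with ⟨h3, h4⟩ | ⟨h3, h4⟩
    · left
      refine ⟨h2.1 h3, fun h6 => h4 ?_⟩
      change x - (v + w) ∈ E
      rw [h5]; exact h6
    · right
      refine ⟨?_, fun h6 => h4 (h2.2 h6)⟩
      change x - v - w ∈ E
      rw [← h5]; exact h3

theorem real_preimage_sub (A : Set ℂ) (v : ℂ) :
    volume.real ((fun x => x - v) ⁻¹' A) = volume.real A := by
  rw [Measure.real, Measure.real, volume_preimage_sub]

theorem real_dif_add {E : Set ℂ} (hfin : volume E ≠ ∞) (v w : ℂ) :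
    volume.real (dif E (v + w)) ≤ volume.real (dif E v) + volume.real (dif E w) := by
  have hne : volume (dif E v ∪ (fun x => x - v) ⁻¹' (dif E w)) ≠ ∞ := by
    refine ne_top_of_le_ne_top ?_ (measure_union_le _ _)
    rw [volume_preimage_sub]
    exact ENNReal.add_ne_top.2 ⟨volume_dif_ne_top hfin v, volume_dif_ne_top hfin w⟩
  calc volume.real (dif E (v + w)) ≤ volume.real (dif E v ∪ (fun x => x - v) ⁻¹' (dif E w)) :=
        measureReal_mono (dif_add E v w) hne
    _ ≤ volume.real (dif E v) + volume.real ((fun x => x - v) ⁻¹' (dif E w)) :=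
        measureReal_union_le _ _
    _ = _ := by rw [real_preimage_sub]

theorem dif_zero (E : Set ℂ) : dif E 0 = ∅ := by
  have h : (fun x : ℂ => x - 0) ⁻¹' E = E := by
    ext x; simp
  rw [dif, h, symmDiff_self]
  rfl

theorem real_dif_nsmul {E : Set ℂ} (hfin : volume E ≠ ∞) (v : ℂ) (k : ℕ) :
    volume.real (dif E (k * v)) ≤ k * volume.real (dif E v) := by
  induction k with
  | zero => simp [dif_zero]
  | succ k ih =>
    have h1 : ((k + 1 : ℕ) : ℂ) * v = k * v + v := by push_cast; ring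
    rw [h1]
    refine (real_dif_add hfin _ _).trans ?_
    push_cast
    linarith

/-- The part in a disc. -/
theorem real_dif_double {E : Set ℂ} (hfin : volume E ≠ ∞) (w : ℂ) (S : ℝ) :
    volume.real (dif E (2 * w) ∩ closedBall 0 S) ≤
      2 * volume.real (dif E w ∩ closedBall 0 (S + ‖w‖)) := by
  set A := dif E w ∩ closedBall 0 (S + ‖w‖) with hA
  have hAfin : volume A ≠ ∞ :=
    ne_top_of_le_ne_top (volume_dif_ne_top hfin w) (measure_mono inter_subset_left)
  have hsub : dif E (2 * w) ∩ closedBall 0 S ⊆ A ∪ (fun x => x - w) ⁻¹' A := by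
    rintro x ⟨hx, hxS⟩
    rw [mem_closedBall_zero_iff] at hxS
    rw [two_mul] at hx
    rcases dif_add E w w hx with h | h
    · left
      refine ⟨h, ?_⟩
      rw [mem_closedBall_zero_iff]
      linarith [norm_nonneg w]
    · right
      refine ⟨h, ?_⟩
      rw [mem_closedBall_zero_iff]
      exact (norm_sub_le x w).trans (by linarith)
  have hne : volume (A ∪ (fun x => x - w) ⁻¹' A) ≠ ∞ := by
    refine ne_top_of_le_ne_top ?_ (measure_union_le _ _)
    rw [volume_preimage_sub]
    exact ENNReal.add_ne_top.2 ⟨hAfin, hAfin⟩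
  calc _ ≤ volume.real (A ∪ (fun x => x - w) ⁻¹' A) := measureReal_mono hsub hne
    _ ≤ volume.real A + volume.real ((fun x => x - w) ⁻¹' A) := measureReal_union_le _ _
    _ = _ := by rw [real_preimage_sub]; ring

/-- A set of finite measure is almost contained in a disc. -/
theorem exists_disc {U : Set ℂ} (hU : MeasurableSet U) (hfin : volume U ≠ ∞) {ε : ℝ} (hε : 0 < ε) :
    ∃ S : ℝ, 0 ≤ S ∧ volume.real (U \ closedBall 0 S) < ε := by
  have h1 : Tendsto (fun k : ℕ => volume (U \ closedBall 0 (k : ℝ))) atTop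
      (𝓝 (volume (⋂ k : ℕ, U \ closedBall 0 (k : ℝ)))) := by
    apply tendsto_measure_iInter_atTop
    · intro k
      exact (hU.diff isClosed_closedBall.measurableSet).nullMeasurableSet
    · intro j k hjk
      apply sdiff_subset_sdiff_right
      exact closedBall_subset_closedBall (by exact_mod_cast hjk)
    · exact ⟨0, ne_top_of_le_ne_top hfin (measure_mono sdiff_subset)⟩
  have h2 : ⋂ k : ℕ, U \ closedBall 0 (k : ℝ) = ∅ := by
    ext x
    simp only [mem_iInter, mem_empty_iff_false, iff_false, not_forall]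
    obtain ⟨k, hk⟩ := exists_nat_ge ‖x‖
    refine ⟨k, fun h => h.2 ?_⟩
    rw [mem_closedBall_zero_iff]
    exact hk
  rw [h2, measure_empty] at h1
  have h3 := (h1.eventually (gt_mem_nhds (ENNReal.ofReal_pos.2 hε))).exists
  obtain ⟨k, hk⟩ := h3
  refine ⟨k, Nat.cast_nonneg k, ?_⟩
  rw [Measure.real]
  exact ENNReal.toReal_lt_of_lt_ofReal hk

theorem tendsto_dif_zero {E : Set ℂ} (hE : MeasurableSet E) (hfin : volume E ≠ ∞) :
    Tendsto (fun w => volume (dif E w)) (𝓝 0) (𝓝 0) := by
  let F : C(ℂ, C(ℂ, ℂ)) := ContinuousMap.curry ⟨fun p : ℂ × ℂ => p.2 - p.1, by fun_prop⟩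
  have hF : ∀ w x : ℂ, F w x = x - w := fun w x => rfl
  have hmp : ∀ w : ℂ, MeasurePreserving (F w) (volume : Measure ℂ) volume := by
    intro w
    exact measurePreserving_sub_right volume w
  have h1 := tendsto_measure_symmDiff_preimage_nhds_zero (f := F) (g := F 0) (s := E)
    (μ := (volume : Measure ℂ)) (ν := (volume : Measure ℂ))
    (F.continuous.tendsto 0) (Eventually.of_forall hmp) (hmp 0) hE.nullMeasurableSet hfin
  have h2 : ∀ w, (F w ⁻¹' E) = (fun x => x - w) ⁻¹' E := fun w => rfl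
  have h3 : (fun x : ℂ => x - 0) ⁻¹' E = E := by
    ext x
    change x - 0 ∈ E ↔ x ∈ E
    rw [sub_zero]
  simp only [h2, h3] at h1
  refine h1.congr (fun w => ?_)
  rw [dif, symmDiff_comm]

/-- The core contradiction. -/
theorem core {E : Set ℂ} (hE : MeasurableSet E) (hfin : volume E ≠ ∞) (h0 : volume E ≠ 0)
    {K : ℝ} (hK : 0 < K)
    (hesc : ∀ R : ℝ, ∃ η : ℝ, 0 < η ∧ ∀ v : ℂ, volume.real (dif E v) < η →
      volume.real (dif E v) ≤ K * volume.real (dif E v \ closedBall 0 R))
    (u : ℂ) (hu : ‖u‖ = 1) {M : ℝ}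
    (hM : ∀ T : ℝ, 0 ≤ T → volume.real (dif E (T * u)) ≤ M * T) : False := by
  have hEpos : 0 < volume.real E := by
    rw [Measure.real]
    exact ENNReal.toReal_pos h0 hfin
  -- a large translation
  obtain ⟨R, hR0, hR⟩ := exists_disc hE hfin (ε := volume.real E / 4) (by positivity)
  set T : ℝ := 2 * R + 1 with hT
  have hT0 : 0 < T := by linarith
  have hnT : ∀ t : ℝ, 0 ≤ t → ‖(t : ℂ) * u‖ = t := by
    intro t ht
    rw [norm_mul, hu, mul_one, Complex.norm_real, Real.norm_eq_abs, abs_of_nonneg ht]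
  have hbig : volume.real E / 2 ≤ volume.real (dif E (T * u)) := by
    set w : ℂ := T * u with hw
    have hnw : ‖w‖ = T := hnT T hT0.le
    set A := E \ closedBall 0 R with hA
    have hAfin : volume A ≠ ∞ := ne_top_of_le_ne_top hfin (measure_mono sdiff_subset)
    have hsub : E ⊆ dif E w ∪ (A ∪ (fun x => x - w) ⁻¹' A) := by
      intro x hx
      by_cases h1 : x - w ∈ E
      · right
        by_cases h2 : x ∈ closedBall (0 : ℂ) R
        · right
          refine ⟨h1, ?_⟩
          rw [mem_closedBall_zero_iff] at h2 ⊢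
          rw [not_le]
          have : ‖w‖ ≤ ‖x‖ + ‖x - w‖ := by
            have := norm_sub_le x (x - w)
            rwa [sub_sub_cancel] at this
          linarith
        · left; exact ⟨hx, h2⟩
      · left; left; exact ⟨hx, h1⟩
    have hne2 : volume (A ∪ (fun x => x - w) ⁻¹' A) ≠ ∞ := by
      refine ne_top_of_le_ne_top ?_ (measure_union_le _ _)
      rw [volume_preimage_sub]
      exact ENNReal.add_ne_top.2 ⟨hAfin, hAfin⟩
    have hne : volume (dif E w ∪ (A ∪ (fun x => x - w) ⁻¹' A)) ≠ ∞ :=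
      ne_top_of_le_ne_top (ENNReal.add_ne_top.2 ⟨volume_dif_ne_top hfin w, hne2⟩)
        (measure_union_le _ _)
    have h3 : volume.real E ≤ volume.real (dif E w) + (volume.real A + volume.real A) := by
      calc volume.real E ≤ volume.real (dif E w ∪ (A ∪ (fun x => x - w) ⁻¹' A)) :=
            measureReal_mono hsub hne
        _ ≤ volume.real (dif E w) + volume.real (A ∪ (fun x => x - w) ⁻¹' A) :=
            measureReal_union_le _ _
        _ ≤ volume.real (dif E w) + (volume.real A + volume.real ((fun x => x - w) ⁻¹' A)) := by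
            gcongr
            exact measureReal_union_le _ _
        _ = _ := by rw [real_preimage_sub]
    linarith
  -- the sequence
  set w : ℕ → ℂ := fun j => ((T / 2 ^ j : ℝ) : ℂ) * u with hw
  have hw2 : ∀ j, w j = 2 * w (j + 1) := by
    intro j
    simp only [hw]
    push_cast
    rw [pow_succ]
    field_simp
  have hwn : ∀ j, ‖w j‖ = T / 2 ^ j := fun j => hnT _ (by positivity)
  set G : ℕ → ℝ := fun j => 2 ^ j * volume.real (dif E (w j)) with hG
  have hmono : Monotone G := by
    apply monotone_nat_of_le_succ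
    intro j
    have h1 := real_dif_add hfin (w (j + 1)) (w (j + 1))
    rw [← two_mul, ← hw2 j] at h1
    simp only [hG]
    rw [pow_succ]
    nlinarith [pow_pos (show (0 : ℝ) < 2 by norm_num) j]
  have hupper : ∀ j, G j ≤ M * T := by
    intro j
    have h1 := hM (T / 2 ^ j) (by positivity)
    calc G j ≤ 2 ^ j * (M * (T / 2 ^ j)) := mul_le_mul_of_nonneg_left h1 (by positivity)
      _ = M * T := by field_simp
  have hG0 : volume.real E / 2 ≤ G 0 := by
    have h1 : w 0 = T * u := by simp [hw]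
    simp only [hG, h1, pow_zero, one_mul]
    exact hbig
  have hbdd : BddAbove (range G) := ⟨M * T, by rintro _ ⟨j, rfl⟩; exact hupper j⟩
  set Γ : ℝ := ⨆ j, G j with hΓ
  have hGle : ∀ j, G j ≤ Γ := fun j => le_ciSup hbdd j
  set ε : ℝ := volume.real E / (16 * K) with hε
  have hε0 : 0 < ε := by positivity
  obtain ⟨J, hJ⟩ : ∃ J, Γ - ε < G J := exists_lt_of_lt_ciSup (by linarith)
  obtain ⟨S, hS0, hS⟩ := exists_disc (measurableSet_dif hE (w J)) (volume_dif_ne_top hfin (w J))
    (ε := ε / 2 ^ J) (by positivity)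
  -- splitting
  have hsplit : ∀ j : ℕ, ∀ r : ℝ, volume.real (dif E (w j)) =
      volume.real (dif E (w j) ∩ closedBall 0 r) + volume.real (dif E (w j) \ closedBall 0 r) := by
    intro j r
    exact (measureReal_inter_add_sdiff₀ isClosed_closedBall.measurableSet.nullMeasurableSet
      (volume_dif_ne_top hfin (w j))).symm
  have hloc : ∀ i : ℕ, 2 ^ J * volume.real (dif E (w J) ∩ closedBall 0 S) ≤
      2 ^ (J + i) * volume.real (dif E (w (J + i)) ∩
        closedBall 0 (S + T / 2 ^ J - T / 2 ^ (J + i))) := by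
    intro i
    induction i with
    | zero => simp
    | succ i ih =>
      refine ih.trans ?_
      have h1 := real_dif_double hfin (w (J + i + 1)) (S + T / 2 ^ J - T / 2 ^ (J + i))
      rw [← hw2 (J + i), hwn] at h1
      have h2 : S + T / 2 ^ J - T / 2 ^ (J + i) + T / 2 ^ (J + i + 1) =
          S + T / 2 ^ J - T / 2 ^ (J + i + 1) := by
        have h3 : T / 2 ^ (J + i) = 2 * (T / 2 ^ (J + i + 1)) := by
          rw [pow_succ]; field_simp
        rw [h3]; ring
      rw [h2] at h1
      rw [← add_assoc]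
      calc 2 ^ (J + i) * volume.real (dif E (w (J + i)) ∩
            closedBall 0 (S + T / 2 ^ J - T / 2 ^ (J + i))) ≤
          2 ^ (J + i) * (2 * volume.real (dif E (w (J + i + 1)) ∩
            closedBall 0 (S + T / 2 ^ J - T / 2 ^ (J + i + 1)))) :=
            mul_le_mul_of_nonneg_left h1 (by positivity)
        _ = _ := by rw [← mul_assoc, ← pow_succ]
  set R₁ : ℝ := S + T with hR₁
  have hfar : ∀ j, J ≤ j → 2 ^ j * volume.real (dif E (w j) \ closedBall 0 R₁) ≤ 2 * ε := by
    intro j hj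
    obtain ⟨i, rfl⟩ := Nat.exists_eq_add_of_le hj
    have h1 := hloc i
    have h2 : volume.real (dif E (w (J + i)) ∩ closedBall 0 (S + T / 2 ^ J - T / 2 ^ (J + i))) ≤
        volume.real (dif E (w (J + i)) ∩ closedBall 0 R₁) := by
      apply measureReal_mono
      · apply inter_subset_inter_right
        apply closedBall_subset_closedBall
        have h3 : T / 2 ^ J ≤ T := div_le_self hT0.le (one_le_pow₀ (by norm_num))
        have h4 : 0 ≤ T / 2 ^ (J + i) := by positivity
        linarith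
      · exact ne_top_of_le_ne_top (volume_dif_ne_top hfin _) (measure_mono inter_subset_left)
    have h3 := hsplit (J + i) R₁
    have h4 := hsplit J S
    have h5 : 2 ^ J * volume.real (dif E (w J) \ closedBall 0 S) ≤ ε := by
      calc 2 ^ J * volume.real (dif E (w J) \ closedBall 0 S) ≤ 2 ^ J * (ε / 2 ^ J) :=
            mul_le_mul_of_nonneg_left hS.le (by positivity)
        _ = ε := by field_simp
    have h6 : (2 : ℝ) ^ (J + i) * volume.real (dif E (w (J + i)) ∩
        closedBall 0 (S + T / 2 ^ J - T / 2 ^ (J + i))) ≤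
        2 ^ (J + i) * volume.real (dif E (w (J + i)) ∩ closedBall 0 R₁) :=
      mul_le_mul_of_nonneg_left h2 (by positivity)
    have h7 : G (J + i) = 2 ^ (J + i) * volume.real (dif E (w (J + i)) ∩ closedBall 0 R₁) +
        2 ^ (J + i) * volume.real (dif E (w (J + i)) \ closedBall 0 R₁) := by
      simp only [hG]
      rw [h3]; ring
    have h8 : G J = 2 ^ J * volume.real (dif E (w J) ∩ closedBall 0 S) +
        2 ^ J * volume.real (dif E (w J) \ closedBall 0 S) := by
      simp only [hG]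
      rw [h4]; ring
    have h9 := hGle (J + i)
    linarith
  -- escape
  obtain ⟨η, hη, hesc1⟩ := hesc R₁
  obtain ⟨j₁, hj₁⟩ : ∃ j₁ : ℕ, M * T / η < 2 ^ j₁ := pow_unbounded_of_one_lt _ (by norm_num)
  set j := max J j₁ with hj
  have h1 : volume.real (dif E (w j)) < η := by
    have h2 := hM (T / 2 ^ j) (by positivity)
    have h3 : M * T / η < 2 ^ j := lt_of_lt_of_le hj₁
      (pow_le_pow_right₀ (by norm_num) (le_max_right _ _))
    rw [div_lt_iff₀ hη] at h3
    have h4 : M * (T / 2 ^ j) < η := by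
      rw [mul_div_assoc', div_lt_iff₀ (by positivity)]
      linarith
    exact lt_of_le_of_lt h2 h4
  have h2 := hesc1 _ h1
  have h3 := hfar j (le_max_left _ _)
  have h4 : G j ≤ K * (2 * ε) := by
    calc G j = 2 ^ j * volume.real (dif E (w j)) := rfl
      _ ≤ 2 ^ j * (K * volume.real (dif E (w j) \ closedBall 0 R₁)) :=
          mul_le_mul_of_nonneg_left h2 (by positivity)
      _ = K * (2 ^ j * volume.real (dif E (w j) \ closedBall 0 R₁)) := by ring
      _ ≤ _ := mul_le_mul_of_nonneg_left h3 hK.le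
  have h5 : G 0 ≤ G j := hmono (Nat.zero_le j)
  have h6 : K * (2 * ε) = volume.real E / 8 := by
    rw [hε]; field_simp; norm_num
  linarith

/-- **Roughness at infinity.** -/
theorem rough {E : Set ℂ} (hE : MeasurableSet E) (hfin : volume E ≠ ∞) (h0 : volume E ≠ 0)
    {K : ℝ} (hK : 0 < K)
    (hesc : ∀ R : ℝ, ∃ η : ℝ, 0 < η ∧ ∀ v : ℂ, volume.real (dif E v) < η →
      volume.real (dif E v) ≤ K * volume.real (dif E v \ closedBall 0 R))
    (R P : ℝ) : ∃ δ : ℝ, 0 < δ ∧ ∀ v : ℂ, v ≠ 0 → ‖v‖ < δ →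
      P * ‖v‖ ≤ volume.real (dif E v \ closedBall 0 R) := by
  by_contra hcon
  push Not at hcon
  have h1 : ∀ i : ℕ, ∃ v : ℂ, v ≠ 0 ∧ ‖v‖ < 1 / ((i : ℝ) + 1) ∧
      volume.real (dif E v \ closedBall 0 R) < P * ‖v‖ := fun i => hcon _ (by positivity)
  choose v hv0 hvn hvP using h1
  have hP : 0 < P := by
    have h2 := hvP 0
    have h3 : 0 ≤ volume.real (dif E (v 0) \ closedBall 0 R) := measureReal_nonneg
    have h4 : 0 < ‖v 0‖ := norm_pos_iff.2 (hv0 0)
    by_contra hP
    push Not at hP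
    nlinarith
  have hvt : Tendsto (fun i => ‖v i‖) atTop (𝓝 0) :=
    squeeze_zero (fun i => norm_nonneg _) (fun i => (hvn i).le) tendsto_one_div_add_atTop_nhds_zero_nat
  set e : ℕ → ℂ := fun i => (((‖v i‖)⁻¹ : ℝ) : ℂ) * v i with he
  have he1 : ∀ i, e i ∈ sphere (0 : ℂ) 1 := by
    intro i
    rw [mem_sphere_zero_iff_norm]
    simp only [he]
    rw [norm_mul, Complex.norm_real, norm_inv, norm_norm]
    exact inv_mul_cancel₀ (norm_ne_zero_iff.2 (hv0 i))
  have hve : ∀ i, v i = (‖v i‖ : ℂ) * e i := by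
    intro i
    simp only [he]
    rw [← mul_assoc, ← Complex.ofReal_mul, mul_inv_cancel₀ (norm_ne_zero_iff.2 (hv0 i)),
      Complex.ofReal_one, one_mul]
  obtain ⟨u, hu, φ, hφ, hlim⟩ := (isCompact_sphere (0 : ℂ) 1).tendsto_subseq he1
  rw [mem_sphere_zero_iff_norm] at hu
  obtain ⟨η, hη, hesc1⟩ := hesc R
  have hD0 : Tendsto (fun w => volume.real (dif E w)) (𝓝 0) (𝓝 0) := by
    have := (ENNReal.continuousAt_toReal ENNReal.zero_ne_top).tendsto.comp (tendsto_dif_zero hE hfin)
    exact this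
  have hvt0 : Tendsto v atTop (𝓝 0) := tendsto_zero_iff_norm_tendsto_zero.2 hvt
  apply core hE hfin h0 hK hesc u hu (M := K * P)
  intro T hT
  -- approximating sequence
  set k : ℕ → ℕ := fun i => ⌊T / ‖v (φ i)‖⌋₊ with hk
  have hvpos : ∀ i, 0 < ‖v i‖ := fun i => norm_pos_iff.2 (hv0 i)
  have hk1 : ∀ i, (k i : ℝ) * ‖v (φ i)‖ ≤ T := by
    intro i
    have := Nat.floor_le (show 0 ≤ T / ‖v (φ i)‖ by positivity)
    exact (le_div_iff₀ (hvpos _)).1 this
  have hk2 : ∀ i, T ≤ (k i : ℝ) * ‖v (φ i)‖ + ‖v (φ i)‖ := by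
    intro i
    have := (Nat.lt_floor_add_one (T / ‖v (φ i)‖)).le
    have h2 := (div_le_iff₀ (hvpos _)).1 this
    linarith
  set z : ℕ → ℂ := fun i => T * u - k i * v (φ i) with hz
  have hznorm : ∀ i, ‖z i‖ ≤ T * ‖u - e (φ i)‖ + ‖v (φ i)‖ := by
    intro i
    have h2 : z i = (T : ℂ) * (u - e (φ i)) + ((T - k i * ‖v (φ i)‖ : ℝ) : ℂ) * e (φ i) := by
      simp only [hz]
      have h3 := hve (φ i)
      push_cast
      calc (T : ℂ) * u - k i * v (φ i) = (T : ℂ) * u - k i * ((‖v (φ i)‖ : ℂ) * e (φ i)) := by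
            rw [← h3]
        _ = _ := by ring
    rw [h2]
    have h3 : ‖e (φ i)‖ = 1 := mem_sphere_zero_iff_norm.1 (he1 (φ i))
    calc _ ≤ ‖(T : ℂ) * (u - e (φ i))‖ + ‖((T - k i * ‖v (φ i)‖ : ℝ) : ℂ) * e (φ i)‖ :=
          norm_add_le _ _
      _ = T * ‖u - e (φ i)‖ + (T - k i * ‖v (φ i)‖) := by
          rw [norm_mul, norm_mul, h3, mul_one, Complex.norm_real, Complex.norm_real,
            Real.norm_eq_abs, Real.norm_eq_abs, abs_of_nonneg hT,
            abs_of_nonneg (by linarith [hk1 i])]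
      _ ≤ _ := by linarith [hk2 i]
  have hz0 : Tendsto z atTop (𝓝 0) := by
    apply squeeze_zero_norm hznorm
    have h2 : Tendsto (fun i => ‖u - e (φ i)‖) atTop (𝓝 0) := by
      have h3 : Tendsto (fun i => u - e (φ i)) atTop (𝓝 (u - u)) := tendsto_const_nhds.sub hlim
      rw [sub_self] at h3
      exact tendsto_zero_iff_norm_tendsto_zero.1 h3
    have h3 := (h2.const_mul T).add (hvt.comp hφ.tendsto_atTop)
    simpa using h3
  have hlim2 : Tendsto (fun i => K * P * T + volume.real (dif E (z i))) atTop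
      (𝓝 (K * P * T + 0)) := tendsto_const_nhds.add (hD0.comp hz0)
  rw [add_zero] at hlim2
  refine ge_of_tendsto hlim2 ?_
  have hev : ∀ᶠ i in atTop, volume.real (dif E (v (φ i))) < η :=
    (hD0.comp (hvt0.comp hφ.tendsto_atTop)).eventually (gt_mem_nhds hη)
  filter_upwards [hev] with i hi
  have h2 : (T : ℂ) * u = k i * v (φ i) + z i := by simp only [hz]; ring
  have h3 := hesc1 _ hi
  have h4 := real_dif_nsmul hfin (v (φ i)) (k i)
  rw [h2]
  refine (real_dif_add hfin _ _).trans ?_
  have h5 : (k i : ℝ) * volume.real (dif E (v (φ i))) ≤ K * P * T := by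
    have h6 : volume.real (dif E (v (φ i))) ≤ K * (P * ‖v (φ i)‖) :=
      h3.trans (mul_le_mul_of_nonneg_left (hvP (φ i)).le hK.le)
    calc (k i : ℝ) * volume.real (dif E (v (φ i))) ≤ k i * (K * (P * ‖v (φ i)‖)) :=
          mul_le_mul_of_nonneg_left h6 (Nat.cast_nonneg _)
      _ = K * P * (k i * ‖v (φ i)‖) := by ring
      _ ≤ _ := mul_le_mul_of_nonneg_left (hk1 i) (by positivity)
  linarith

end Pool.MPb9430d.Rough
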