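import Mathlib

/-!
# Overlaps of a plane set with its translates on a circle

For a plane set `U` of small measure the average over the circle of radius `r ≥ 1` of
`|U ∩ (U - z)|` is `o(|U|)`.
-/

open MeasureTheory Complex Set
open scoped ENNReal Real

namespace Pool.MPb9430d.Rough

/-- The rotation by the angle `θ`. -/
noncomputable def rot (θ : ℝ) : ℂ := exp (θ * I)

/-- The measure of the overlap of `U` with its translate. -/
noncomputable def ov (U : Set ℂ) (z : ℂ) : ℝ≥0∞ := volume (U ∩ (fun x => x + z) ⁻¹' U)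

/-- The (not normalised) circular average of the overlap. -/
noncomputable def J (U : Set ℂ) (r : ℝ) : ℝ≥0∞ := ∫⁻ θ in Ioc (-π) π, ov U (r * rot θ)

theorem rot_add (a b : ℝ) : rot (a + b) = rot a * rot b := by
  rw [rot, rot, rot, ← Complex.exp_add]
  congr 1
  push_cast
  ring

theorem norm_rot (a : ℝ) : ‖rot a‖ = 1 := by
  rw [rot, Complex.norm_exp_ofReal_mul_I]

theorem continuous_rot : Continuous rot := by
  unfold rot
  fun_prop

theorem measurable_rot : Measurable rot := continuous_rot.measurable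

theorem rot_periodic (a : ℝ) : rot (a + 2 * π) = rot a := by
  rw [rot, rot]
  push_cast
  rw [add_mul, Complex.exp_add, Complex.exp_two_pi_mul_I, mul_one]

theorem ov_le (U : Set ℂ) (z : ℂ) : ov U z ≤ volume U := measure_mono inter_subset_left

/-- The indicator as a function to `ℝ≥0∞`. -/
noncomputable def ind (U : Set ℂ) (x : ℂ) : ℝ≥0∞ := U.indicator 1 x

theorem measurable_ind {U : Set ℂ} (hU : MeasurableSet U) : Measurable (ind U) :=
  measurable_one.indicator hU

theorem ind_of_mem {U : Set ℂ} {x : ℂ} (h : x ∈ U) : ind U x = 1 := by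
  rw [ind, indicator_of_mem h]; rfl

theorem ind_of_notMem {U : Set ℂ} {x : ℂ} (h : x ∉ U) : ind U x = 0 := by
  rw [ind, indicator_of_notMem h]

theorem ind_le (U : Set ℂ) (x : ℂ) : ind U x ≤ 1 := by
  by_cases h : x ∈ U
  · rw [ind_of_mem h]
  · rw [ind_of_notMem h]; exact zero_le_one

theorem lintegral_ind {U : Set ℂ} (hU : MeasurableSet U) : ∫⁻ x, ind U x = volume U := by
  unfold ind
  rw [lintegral_indicator_one hU]

theorem ov_eq {U : Set ℂ} (hU : MeasurableSet U) (z : ℂ) :
    ov U z = ∫⁻ x, ind U x * ind U (x + z) := by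
  have h1 : MeasurableSet (U ∩ (fun x => x + z) ⁻¹' U) :=
    hU.inter (hU.preimage (measurable_add_const z))
  rw [ov, ← lintegral_indicator_one h1]
  congr 1
  ext x
  by_cases h : x ∈ U
  · by_cases h2 : x + z ∈ U
    · rw [ind_of_mem h, ind_of_mem h2, indicator_of_mem (show x ∈ U ∩ (fun x => x + z) ⁻¹' U from
        ⟨h, h2⟩)]
      simp
    · rw [ind_of_notMem h2, indicator_of_notMem (fun h3 => h2 h3.2), mul_zero]
  · rw [ind_of_notMem h, indicator_of_notMem (fun h3 => h h3.1), zero_mul]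

theorem measurable_pair {U : Set ℂ} (hU : MeasurableSet U) :
    Measurable (fun p : ℂ × ℂ => ind U p.2 * ind U (p.2 + p.1)) := by
  have h := measurable_ind hU
  exact (h.comp measurable_snd).mul (h.comp (measurable_snd.add measurable_fst))

theorem measurable_ov {U : Set ℂ} (hU : MeasurableSet U) : Measurable (ov U) := by
  have h1 : ov U = fun z => ∫⁻ x, ind U x * ind U (x + z) := by
    ext z; exact ov_eq hU z
  rw [h1]
  exact (measurable_pair hU).lintegral_prod_right'

theorem lintegral_ov {U : Set ℂ} (hU : MeasurableSet U) : ∫⁻ z, ov U z = (volume U) ^ 2 := by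
  have h1 : ∫⁻ z, ov U z = ∫⁻ z, ∫⁻ x, ind U x * ind U (x + z) :=
    lintegral_congr (fun z => ov_eq hU z)
  rw [h1, lintegral_lintegral_swap (measurable_pair hU).aemeasurable]
  have h2 : ∀ x : ℂ, ∫⁻ z, ind U x * ind U (x + z) = ind U x * volume U := by
    intro x
    rw [lintegral_const_mul (f := fun z => ind U (x + z)) _
      ((measurable_ind hU).comp (measurable_const_add x))]
    congr 1
    rw [← lintegral_ind hU]
    exact lintegral_add_left_eq_self (ind U) x
  rw [lintegral_congr h2, lintegral_mul_const _ (measurable_ind hU), lintegral_ind hU, sq]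

theorem measurable_J {U : Set ℂ} (hU : MeasurableSet U) : Measurable (J U) := by
  unfold J
  apply Measurable.lintegral_prod_right' (f := fun p : ℝ × ℝ => ov U (p.1 * rot p.2))
  exact (measurable_ov hU).comp
    ((Complex.measurable_ofReal.comp measurable_fst).mul (measurable_rot.comp measurable_snd))

theorem J_le (U : Set ℂ) (r : ℝ) : J U r ≤ volume U * ENNReal.ofReal (2 * π) := by
  unfold J
  calc ∫⁻ θ in Ioc (-π) π, ov U (r * rot θ) ≤ ∫⁻ _θ in Ioc (-π) π, volume U :=
        lintegral_mono (fun θ => ov_le U _)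
    _ = volume U * ENNReal.ofReal (2 * π) := by
        rw [setLIntegral_const, Real.volume_Ioc]
        congr 2
        ring

/-- Polar coordinates. -/
theorem lintegral_J {U : Set ℂ} (hU : MeasurableSet U) :
    ∫⁻ s in Ioi (0 : ℝ), ENNReal.ofReal s * J U s = (volume U) ^ 2 := by
  rw [← lintegral_ov hU, ← Complex.lintegral_comp_polarCoord_symm, polarCoord_target]
  have hm : Measurable (fun p : ℝ × ℝ => ENNReal.ofReal p.1 • ov U (p.1 * rot p.2)) := by
    apply Measurable.mul
    · exact ENNReal.measurable_ofReal.comp measurable_fst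
    · exact (measurable_ov hU).comp
        ((Complex.measurable_ofReal.comp measurable_fst).mul (measurable_rot.comp measurable_snd))
  have h1 : ∫⁻ p in Ioi (0 : ℝ) ×ˢ Ioo (-π) π, ENNReal.ofReal p.1 • ov U (Complex.polarCoord.symm p)
      = ∫⁻ p in Ioi (0 : ℝ) ×ˢ Ioo (-π) π, ENNReal.ofReal p.1 • ov U (p.1 * rot p.2) := by
    apply lintegral_congr
    intro p
    rw [Complex.polarCoord_symm_apply, rot, Complex.exp_mul_I, Complex.ofReal_cos,
      Complex.ofReal_sin]
  rw [h1, Measure.volume_eq_prod, ← Measure.prod_restrict,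
    lintegral_prod _ hm.aemeasurable]
  apply lintegral_congr
  intro s
  rw [J]
  have h2 : ∫⁻ y in Ioo (-π) π, ENNReal.ofReal s • ov U (s * rot y) =
      ENNReal.ofReal s * ∫⁻ y in Ioo (-π) π, ov U (s * rot y) := by
    rw [← lintegral_const_mul]
    · rfl
    · exact (measurable_ov hU).comp (measurable_const.mul measurable_rot)
  change ENNReal.ofReal s * _ = ∫⁻ y in Ioo (-π) π, ENNReal.ofReal s • ov U (s * rot y)
  rw [h2]
  congr 1
  exact setLIntegral_congr Ioo_ae_eq_Ioc.symm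

/-- Integrals of periodic functions over a period do not depend on a shift. -/
theorem lintegral_shift (F : ℝ → ℝ≥0∞) (hF : ∀ x, F (x + 2 * π) = F x) (a : ℝ) :
    ∫⁻ θ in Ioc (-π) π, F (θ + a) = ∫⁻ θ in Ioc (-π) π, F θ := by
  have hT : 0 < 2 * π := Real.two_pi_pos
  have h0 : Ioc (-π) π = Ioc (-π) (-π + 2 * π) := by congr 1; ring
  have h1 : ∫⁻ θ in Ioc (-π + a) (-π + a + 2 * π), F θ = ∫⁻ θ in Ioc (-π) (-π + 2 * π), F θ := by
    refine (isAddFundamentalDomain_Ioc hT (-π + a)).setLIntegral_eq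
      (isAddFundamentalDomain_Ioc hT (-π)) F ?_
    rintro ⟨g, hg⟩ x
    obtain ⟨k, rfl⟩ := AddSubgroup.mem_zmultiples_iff.1 hg
    change F (k • (2 * π) + x) = F x
    have hp : Function.Periodic F (2 * π) := hF
    rw [add_comm]
    exact hp.zsmul k x
  rw [h0, ← h1]
  have h2 : (fun θ : ℝ => θ + a) ⁻¹' (Ioc (-π + a) (-π + a + 2 * π)) = Ioc (-π) (-π + 2 * π) := by
    ext θ
    simp only [mem_preimage, mem_Ioc]
    constructor
    · rintro ⟨h3, h4⟩; exact ⟨by linarith, by linarith⟩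
    · rintro ⟨h3, h4⟩; exact ⟨by linarith, by linarith⟩
  rw [← h2]
  exact (measurePreserving_add_right volume a).setLIntegral_comp_preimage_emb
    (measurableEmbedding_addRight a) F _

theorem lintegral_ov_rot (U : Set ℂ) (z : ℂ) :
    ∫⁻ θ in Ioc (-π) π, ov U (rot θ * z) = J U ‖z‖ := by
  have h1 : ∀ θ : ℝ, ov U (rot θ * z) = ov U (‖z‖ * rot (θ + arg z)) := by
    intro θ
    congr 1
    rw [rot_add]
    have h2 : (‖z‖ : ℂ) * rot (arg z) = z := by rw [rot]; exact Complex.norm_mul_exp_arg_mul_I z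
    calc rot θ * z = rot θ * ((‖z‖ : ℂ) * rot (arg z)) := by rw [h2]
      _ = _ := by ring
  rw [J, lintegral_congr h1]
  exact lintegral_shift (fun θ => ov U (‖z‖ * rot θ)) (fun x => by rw [rot_periodic]) (arg z)

/-- The square of the circular average. -/
theorem lintegral_sq {U : Set ℂ} (hU : MeasurableSet U) (r : ℝ) :
    ∫⁻ x, (∫⁻ θ in Ioc (-π) π, ind U (x + r * rot θ)) ^ 2 =
      ∫⁻ ψ in Ioc (-π) π, J U ‖(r : ℂ) * (rot ψ - 1)‖ := by
  have hmi := measurable_ind hU
  have hm1 : ∀ x : ℂ, Measurable (fun θ : ℝ => ind U (x + r * rot θ)) := by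
    intro x
    exact hmi.comp (measurable_const.add (measurable_const.mul measurable_rot))
  -- expand the square
  have h1 : ∀ x : ℂ, (∫⁻ θ in Ioc (-π) π, ind U (x + r * rot θ)) ^ 2 =
      ∫⁻ θ in Ioc (-π) π, ∫⁻ φ in Ioc (-π) π, ind U (x + r * rot θ) * ind U (x + r * rot φ) := by
    intro x
    rw [sq, ← lintegral_mul_const _ (hm1 x)]
    apply lintegral_congr
    intro θ
    rw [lintegral_const_mul _ (hm1 x)]
  rw [lintegral_congr h1]
  -- Tonelli
  have hm3 : Measurable (fun p : (ℂ × ℝ) × ℝ =>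
      ind U (p.1.1 + r * rot p.1.2) * ind U (p.1.1 + r * rot p.2)) := by
    apply Measurable.mul
    · exact hmi.comp ((measurable_fst.comp measurable_fst).add
        (measurable_const.mul (measurable_rot.comp (measurable_snd.comp measurable_fst))))
    · exact hmi.comp ((measurable_fst.comp measurable_fst).add
        (measurable_const.mul (measurable_rot.comp measurable_snd)))
  rw [lintegral_lintegral_swap (f := fun x θ => ∫⁻ φ in Ioc (-π) π,
    ind U (x + r * rot θ) * ind U (x + r * rot φ)) (hm3.lintegral_prod_right').aemeasurable]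
  have hm4 : ∀ θ : ℝ, Measurable (fun p : ℂ × ℝ =>
      ind U (p.1 + r * rot θ) * ind U (p.1 + r * rot p.2)) := by
    intro θ
    apply Measurable.mul
    · exact hmi.comp (measurable_fst.add_const _)
    · exact hmi.comp (measurable_fst.add (measurable_const.mul (measurable_rot.comp measurable_snd)))
  have h2 : ∀ θ : ℝ, ∫⁻ x, ∫⁻ φ in Ioc (-π) π, ind U (x + r * rot θ) * ind U (x + r * rot φ) =
      ∫⁻ φ in Ioc (-π) π, ov U (r * (rot φ - rot θ)) := by
    intro θ
    rw [lintegral_lintegral_swap (hm4 θ).aemeasurable]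
    apply lintegral_congr
    intro φ
    rw [ov_eq hU]
    rw [← lintegral_add_right_eq_self (fun x => ind U x * ind U (x + r * (rot φ - rot θ)))
      (r * rot θ)]
    apply lintegral_congr
    intro x
    congr 2
    ring
  rw [lintegral_congr h2]
  -- shift
  have h3 : ∀ θ : ℝ, ∫⁻ φ in Ioc (-π) π, ov U (r * (rot φ - rot θ)) =
      ∫⁻ ψ in Ioc (-π) π, ov U (rot θ * (r * (rot ψ - 1))) := by
    intro θ
    rw [← lintegral_shift (fun φ => ov U (r * (rot φ - rot θ)))
      (fun x => by simp only [rot_periodic]) θ]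
    apply lintegral_congr
    intro ψ
    simp only [rot_add]
    congr 1
    ring
  rw [lintegral_congr h3]
  have hm5 : Measurable (fun p : ℝ × ℝ => ov U (rot p.1 * (r * (rot p.2 - 1)))) := by
    exact (measurable_ov hU).comp ((measurable_rot.comp measurable_fst).mul
      (measurable_const.mul ((measurable_rot.comp measurable_snd).sub_const 1)))
  rw [lintegral_lintegral_swap (f := fun θ ψ => ov U (rot θ * (r * (rot ψ - 1))))
    hm5.aemeasurable]
  apply lintegral_congr
  intro ψ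
  exact lintegral_ov_rot U _

theorem norm_rot_sub_one (ψ : ℝ) : ‖rot ψ - 1‖ = 2 * |Real.sin (ψ / 2)| := by
  have h1 : rot ψ = exp (I * ψ) := by rw [rot, mul_comm]
  rw [h1, Complex.norm_exp_I_mul_ofReal_sub_one, Real.norm_eq_abs, abs_mul]
  norm_num

/-- The change of variables `s = 2 r sin (ψ / 2)`. -/
theorem lintegral_mid {U : Set ℂ} (hU : MeasurableSet U) {r : ℝ} (hr : 0 < r) {η : ℝ}
    (hη : 0 < η) (hη2 : η ≤ π / 2) :
    ∫⁻ ψ in Ioo η (π - η), J U (2 * r * Real.sin (ψ / 2)) ≤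
      (ENNReal.ofReal (r ^ 2 * Real.sin η))⁻¹ * (volume U) ^ 2 := by
  have hπ := Real.pi_pos
  have hsη : 0 < Real.sin η := Real.sin_pos_of_pos_of_lt_pi hη (by linarith)
  have hc : 0 < r ^ 2 * Real.sin η := by positivity
  set f : ℝ → ℝ := fun ψ => 2 * r * Real.sin (ψ / 2) with hf
  set f' : ℝ → ℝ := fun ψ => r * Real.cos (ψ / 2) with hf'
  have hder : ∀ x ∈ Ioo η (π - η), HasDerivWithinAt f (f' x) (Ioo η (π - η)) x := by
    intro x _
    have h0 : HasDerivAt (fun ψ : ℝ => ψ / 2) (1 / 2) x := (hasDerivAt_id' x).div_const 2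
    have h1 : HasDerivAt (fun ψ : ℝ => Real.sin (ψ / 2)) (Real.cos (x / 2) * (1 / 2)) x := h0.sin
    have h2 := h1.const_mul (2 * r)
    have h3 : 2 * r * (Real.cos (x / 2) * (1 / 2)) = f' x := by rw [hf']; ring
    rw [h3] at h2
    exact h2.hasDerivWithinAt
  have hinj : InjOn f (Ioo η (π - η)) := by
    intro a ha b hb hab
    have h1 : Real.sin (a / 2) = Real.sin (b / 2) := by
      have : 2 * r * Real.sin (a / 2) = 2 * r * Real.sin (b / 2) := hab
      exact mul_left_cancel₀ (by positivity) this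
    have h2 : a / 2 = b / 2 := Real.injOn_sin
      ⟨by linarith [ha.1], by linarith [ha.2]⟩ ⟨by linarith [hb.1], by linarith [hb.2]⟩ h1
    linarith
  have hpt : ∀ ψ ∈ Ioo η (π - η), J U (f ψ) ≤ (ENNReal.ofReal (r ^ 2 * Real.sin η))⁻¹ *
      (ENNReal.ofReal |f' ψ| * (ENNReal.ofReal (f ψ) * J U (f ψ))) := by
    intro ψ hψ
    have hcos : 0 < Real.cos (ψ / 2) :=
      Real.cos_pos_of_mem_Ioo ⟨by linarith [hψ.1], by linarith [hψ.2]⟩
    have hsin : 0 < Real.sin (ψ / 2) :=
      Real.sin_pos_of_pos_of_lt_pi (by linarith [hψ.1]) (by linarith [hψ.2])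
    have h1 : r ^ 2 * Real.sin η ≤ |f' ψ| * f ψ := by
      have h2 : |f' ψ| = r * Real.cos (ψ / 2) := abs_of_pos (by positivity)
      have h3 : |f' ψ| * f ψ = r ^ 2 * Real.sin ψ := by
        rw [h2, hf]
        have h4 : Real.sin ψ = 2 * Real.sin (ψ / 2) * Real.cos (ψ / 2) := by
          rw [← Real.sin_two_mul]; congr 1; ring
        rw [h4]; ring
      rw [h3]
      have h5 : Real.sin η ≤ Real.sin ψ := by
        rcases le_total ψ (π / 2) with h | h
        · exact Real.sin_le_sin_of_le_of_le_pi_div_two (by linarith) h hψ.1.le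
        · rw [← Real.sin_pi_sub ψ]
          exact Real.sin_le_sin_of_le_of_le_pi_div_two (by linarith) (by linarith)
            (by linarith [hψ.2])
      exact mul_le_mul_of_nonneg_left h5 (by positivity)
    have h2 : ENNReal.ofReal (r ^ 2 * Real.sin η) ≤ ENNReal.ofReal |f' ψ| * ENNReal.ofReal (f ψ) := by
      rw [← ENNReal.ofReal_mul (abs_nonneg _)]
      exact ENNReal.ofReal_le_ofReal h1
    have hne0 : ENNReal.ofReal (r ^ 2 * Real.sin η) ≠ 0 := by
      rw [ne_eq, ENNReal.ofReal_eq_zero, not_le]; exact hc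
    calc J U (f ψ) = (ENNReal.ofReal (r ^ 2 * Real.sin η))⁻¹ *
          ENNReal.ofReal (r ^ 2 * Real.sin η) * J U (f ψ) := by
          rw [ENNReal.inv_mul_cancel hne0 ENNReal.ofReal_ne_top, one_mul]
      _ ≤ (ENNReal.ofReal (r ^ 2 * Real.sin η))⁻¹ *
          (ENNReal.ofReal |f' ψ| * ENNReal.ofReal (f ψ)) * J U (f ψ) := by gcongr
      _ = _ := by ring
  calc ∫⁻ ψ in Ioo η (π - η), J U (2 * r * Real.sin (ψ / 2))
      ≤ ∫⁻ ψ in Ioo η (π - η), (ENNReal.ofReal (r ^ 2 * Real.sin η))⁻¹ *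
      (ENNReal.ofReal |f' ψ| * (ENNReal.ofReal (f ψ) * J U (f ψ))) :=
        setLIntegral_mono' measurableSet_Ioo hpt
    _ = (ENNReal.ofReal (r ^ 2 * Real.sin η))⁻¹ * ∫⁻ ψ in Ioo η (π - η),
        ENNReal.ofReal |f' ψ| * (ENNReal.ofReal (f ψ) * J U (f ψ)) := by
        rw [lintegral_const_mul' _ _ (ENNReal.inv_ne_top.2 (by
          rw [ne_eq, ENNReal.ofReal_eq_zero, not_le]; exact hc))]
    _ = (ENNReal.ofReal (r ^ 2 * Real.sin η))⁻¹ * ∫⁻ s in f '' (Ioo η (π - η)),
        (ENNReal.ofReal s * J U s) := by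
        rw [lintegral_image_eq_lintegral_abs_deriv_mul measurableSet_Ioo hder hinj
          (fun s => ENNReal.ofReal s * J U s)]
    _ ≤ (ENNReal.ofReal (r ^ 2 * Real.sin η))⁻¹ * (volume U) ^ 2 := by
        gcongr
        rw [← lintegral_J hU]
        apply lintegral_mono_set
        rintro _ ⟨ψ, hψ, rfl⟩
        have hsin : 0 < Real.sin (ψ / 2) :=
          Real.sin_pos_of_pos_of_lt_pi (by linarith [hψ.1]) (by linarith [hψ.2])
        exact mul_pos (by positivity) hsin

/-- The integral of `J` over all chords. -/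
theorem lintegral_chords {U : Set ℂ} (hU : MeasurableSet U) {r : ℝ} (hr : 0 < r) {η : ℝ}
    (hη : 0 < η) (hη2 : η ≤ π / 2) :
    ∫⁻ ψ in Ioc (-π) π, J U ‖(r : ℂ) * (rot ψ - 1)‖ ≤
      2 * ((ENNReal.ofReal (r ^ 2 * Real.sin η))⁻¹ * (volume U) ^ 2) +
        ENNReal.ofReal (4 * η) * (volume U * ENNReal.ofReal (2 * π)) := by
  have hπ := Real.pi_pos
  set S1 := Ioo η (π - η) with hS1
  set S2 := Ioo (-(π - η)) (-η) with hS2
  set S3 := Icc (-π) (-(π - η)) ∪ (Icc (-η) η ∪ Icc (π - η) π) with hS3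
  have hcov : Ioc (-π) π ⊆ S1 ∪ (S2 ∪ S3) := by
    intro x hx
    by_cases h1 : x ≤ -(π - η)
    · exact Or.inr (Or.inr (Or.inl ⟨hx.1.le, h1⟩))
    push Not at h1
    by_cases h2 : x < -η
    · exact Or.inr (Or.inl ⟨h1, h2⟩)
    push Not at h2
    by_cases h3 : x ≤ η
    · exact Or.inr (Or.inr (Or.inr (Or.inl ⟨h2, h3⟩)))
    push Not at h3
    by_cases h4 : x < π - η
    · exact Or.inl ⟨h3, h4⟩
    push Not at h4
    exact Or.inr (Or.inr (Or.inr (Or.inr ⟨h4, hx.2⟩)))
  have hval : ∀ ψ : ℝ, ‖(r : ℂ) * (rot ψ - 1)‖ = 2 * r * |Real.sin (ψ / 2)| := by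
    intro ψ
    rw [norm_mul, norm_rot_sub_one, Complex.norm_real, Real.norm_eq_abs, abs_of_pos hr]
    ring
  have hI1 : ∫⁻ ψ in S1, J U ‖(r : ℂ) * (rot ψ - 1)‖ ≤
      (ENNReal.ofReal (r ^ 2 * Real.sin η))⁻¹ * (volume U) ^ 2 := by
    refine le_trans (le_of_eq ?_) (lintegral_mid hU hr hη hη2)
    apply setLIntegral_congr_fun measurableSet_Ioo
    intro ψ hψ
    have hsin : 0 < Real.sin (ψ / 2) :=
      Real.sin_pos_of_pos_of_lt_pi (by linarith [hψ.1]) (by linarith [hψ.2])
    simp only [hval, abs_of_pos hsin]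
  have hI2 : ∫⁻ ψ in S2, J U ‖(r : ℂ) * (rot ψ - 1)‖ ≤
      (ENNReal.ofReal (r ^ 2 * Real.sin η))⁻¹ * (volume U) ^ 2 := by
    have h1 : (fun x : ℝ => -x) ⁻¹' S1 = S2 := by
      ext x
      simp only [mem_preimage, hS1, hS2, mem_Ioo]
      constructor
      · rintro ⟨h3, h4⟩; exact ⟨by linarith, by linarith⟩
      · rintro ⟨h3, h4⟩; exact ⟨by linarith, by linarith⟩
    have h2 : ∫⁻ ψ in S2, J U ‖(r : ℂ) * (rot ψ - 1)‖ =
        ∫⁻ ψ in S1, J U ‖(r : ℂ) * (rot ψ - 1)‖ := by
      rw [← h1]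
      have h3 : ∀ ψ : ℝ, J U ‖(r : ℂ) * (rot ψ - 1)‖ =
          (fun x => J U ‖(r : ℂ) * (rot x - 1)‖) (-ψ) := by
        intro ψ
        simp only [hval]
        rw [neg_div, Real.sin_neg, abs_neg]
      rw [setLIntegral_congr_fun (g := fun ψ => (fun x => J U ‖(r : ℂ) * (rot x - 1)‖) (-ψ))
        (measurableSet_Ioo.preimage measurable_neg) (fun ψ _ => h3 ψ)]
      have h5 := (Measure.measurePreserving_neg (volume : Measure ℝ)).setLIntegral_comp_preimage_emb
        (MeasurableEquiv.neg ℝ).measurableEmbedding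
        (fun x => J U ‖(r : ℂ) * (rot x - 1)‖) S1
      exact h5
    rw [h2]
    exact hI1
  have hI3 : ∫⁻ ψ in S3, J U ‖(r : ℂ) * (rot ψ - 1)‖ ≤
      ENNReal.ofReal (4 * η) * (volume U * ENNReal.ofReal (2 * π)) := by
    calc ∫⁻ ψ in S3, J U ‖(r : ℂ) * (rot ψ - 1)‖ ≤
          ∫⁻ _ψ in S3, volume U * ENNReal.ofReal (2 * π) := lintegral_mono (fun ψ => J_le U _)
      _ = volume U * ENNReal.ofReal (2 * π) * volume S3 := setLIntegral_const _ _
      _ ≤ volume U * ENNReal.ofReal (2 * π) * ENNReal.ofReal (4 * η) := by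
          gcongr
          calc volume S3 ≤ volume (Icc (-π) (-(π - η))) +
                (volume (Icc (-η) η) + volume (Icc (π - η) π)) :=
                (measure_union_le _ _).trans (add_le_add le_rfl (measure_union_le _ _))
            _ = ENNReal.ofReal (4 * η) := by
                rw [Real.volume_Icc, Real.volume_Icc, Real.volume_Icc,
                  ← ENNReal.ofReal_add (by linarith) (by linarith),
                  ← ENNReal.ofReal_add (by linarith) (by linarith)]
                congr 1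
                ring
      _ = _ := by ring
  calc ∫⁻ ψ in Ioc (-π) π, J U ‖(r : ℂ) * (rot ψ - 1)‖
      ≤ ∫⁻ ψ in S1 ∪ (S2 ∪ S3), J U ‖(r : ℂ) * (rot ψ - 1)‖ := lintegral_mono_set hcov
    _ ≤ (∫⁻ ψ in S1, J U ‖(r : ℂ) * (rot ψ - 1)‖) + ∫⁻ ψ in (S2 ∪ S3),
        J U ‖(r : ℂ) * (rot ψ - 1)‖ := lintegral_union_le _ _ _
    _ ≤ (∫⁻ ψ in S1, J U ‖(r : ℂ) * (rot ψ - 1)‖) + ((∫⁻ ψ in S2,
        J U ‖(r : ℂ) * (rot ψ - 1)‖) + ∫⁻ ψ in S3, J U ‖(r : ℂ) * (rot ψ - 1)‖) :=
        add_le_add le_rfl (lintegral_union_le _ _ _)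
    _ ≤ _ := by
        refine (add_le_add hI1 (add_le_add hI2 hI3)).trans (le_of_eq ?_)
        ring

/-- **Near lemma.** Sets of small measure overlap little with their translates along a circle. -/
theorem near {ε : ℝ} (hε : 0 < ε) : ∃ δ : ℝ, 0 < δ ∧ ∀ U : Set ℂ, MeasurableSet U →
    volume U < ENNReal.ofReal δ → ∀ r : ℝ, 1 ≤ r → J U r ≤ ENNReal.ofReal ε * volume U := by
  have hπ := Real.pi_pos
  -- the angle
  set η : ℝ := min (ε ^ 2 / (32 * π)) (π / 2) with hη
  have hη0 : 0 < η := lt_min (by positivity) (by positivity)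
  have hη1 : η ≤ ε ^ 2 / (32 * π) := min_le_left _ _
  have hη2 : η ≤ π / 2 := min_le_right _ _
  have hsη : 0 < Real.sin η := Real.sin_pos_of_pos_of_lt_pi hη0 (by linarith)
  refine ⟨ε ^ 2 * Real.sin η / 8, by positivity, ?_⟩
  intro U hU hUδ r hr
  have hUfin : volume U ≠ ∞ := (hUδ.trans ENNReal.ofReal_lt_top).ne
  set m : ℝ := (volume U).toReal with hm
  have hm0 : 0 ≤ m := ENNReal.toReal_nonneg
  have hUm : volume U = ENNReal.ofReal m := (ENNReal.ofReal_toReal hUfin).symm
  have hmδ : m < ε ^ 2 * Real.sin η / 8 := by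
    rw [hUm] at hUδ
    exact (ENNReal.ofReal_lt_ofReal_iff (by positivity)).1 hUδ
  set g : ℂ → ℝ≥0∞ := fun x => ∫⁻ θ in Ioc (-π) π, ind U (x + r * rot θ) with hg
  have hgm : Measurable g := by
    apply Measurable.lintegral_prod_right' (f := fun p : ℂ × ℝ => ind U (p.1 + r * rot p.2))
    exact (measurable_ind hU).comp
      (measurable_fst.add (measurable_const.mul (measurable_rot.comp measurable_snd)))
  -- Tonelli for `J`
  have hJ : J U r = ∫⁻ x in U, g x := by
    rw [J]
    have h1 : ∀ θ : ℝ, ov U (r * rot θ) = ∫⁻ x, ind U x * ind U (x + r * rot θ) :=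
      fun θ => ov_eq hU _
    rw [lintegral_congr h1, lintegral_lintegral_swap]
    · rw [← lintegral_indicator hU]
      apply lintegral_congr
      intro x
      by_cases hx : x ∈ U
      · rw [indicator_of_mem hx, ind_of_mem hx]
        simp only [one_mul]
        rfl
      · rw [indicator_of_notMem hx, ind_of_notMem hx]
        simp
    · apply Measurable.aemeasurable
      apply Measurable.mul
      · exact (measurable_ind hU).comp measurable_snd
      · exact (measurable_ind hU).comp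
          (measurable_snd.add (measurable_const.mul (measurable_rot.comp measurable_fst)))
  -- the quadratic inequality
  have hquad : ∀ a : ℝ≥0∞, a ≤ ENNReal.ofReal (ε / 2) + ENNReal.ofReal (1 / (2 * ε)) * a ^ 2 := by
    intro a
    by_cases ha : a = ∞
    · subst ha
      have h1 : ENNReal.ofReal (1 / (2 * ε)) * ∞ ^ 2 = ∞ := by
        rw [ENNReal.top_pow two_ne_zero, ENNReal.mul_top]
        rw [ne_eq, ENNReal.ofReal_eq_zero, not_le]
        positivity
      rw [h1]
      simp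
    · lift a to NNReal using ha with b
      have h1 : ((b : ℝ≥0∞)) = ENNReal.ofReal (b : ℝ) := (ENNReal.ofReal_coe_nnreal).symm
      rw [h1, ← ENNReal.ofReal_pow b.coe_nonneg, ← ENNReal.ofReal_mul (by positivity),
        ← ENNReal.ofReal_add (by positivity) (by positivity)]
      apply ENNReal.ofReal_le_ofReal
      have h2 : ε / 2 + 1 / (2 * ε) * (b : ℝ) ^ 2 - b = (b - ε) ^ 2 / (2 * ε) := by
        field_simp
        ring
      have h3 : 0 ≤ ((b : ℝ) - ε) ^ 2 / (2 * ε) := by positivity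
      linarith
  have h1 : J U r ≤ ENNReal.ofReal (ε / 2) * volume U +
      ENNReal.ofReal (1 / (2 * ε)) * ∫⁻ x, g x ^ 2 := by
    rw [hJ]
    calc ∫⁻ x in U, g x ≤ ∫⁻ x in U, (ENNReal.ofReal (ε / 2) +
          ENNReal.ofReal (1 / (2 * ε)) * g x ^ 2) := lintegral_mono (fun x => hquad _)
      _ = ENNReal.ofReal (ε / 2) * volume U +
          ENNReal.ofReal (1 / (2 * ε)) * ∫⁻ x in U, g x ^ 2 := by
          rw [lintegral_add_left measurable_const, setLIntegral_const,
            lintegral_const_mul _ (hgm.pow_const 2)]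
      _ ≤ _ := by
          gcongr
          exact Measure.restrict_le_self
  have h2 := lintegral_sq hU r
  have h3 := lintegral_chords hU (show 0 < r by linarith) hη0 hη2
  rw [← h2] at h3
  refine (h1.trans (add_le_add le_rfl (mul_le_mul' le_rfl h3))).trans ?_
  -- numerical part
  have hc : 0 < r ^ 2 * Real.sin η := by positivity
  rw [hUm, ← ENNReal.ofReal_inv_of_pos hc, ← ENNReal.ofReal_pow hm0,
    ← ENNReal.ofReal_mul (by positivity), ← ENNReal.ofReal_mul (by positivity),
    ← ENNReal.ofReal_mul (by positivity), ← ENNReal.ofReal_mul (by positivity)]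
  have h4 : (2 : ℝ≥0∞) = ENNReal.ofReal 2 := by simp
  rw [h4, ← ENNReal.ofReal_mul (by positivity), ← ENNReal.ofReal_add (by positivity) (by positivity),
    ← ENNReal.ofReal_mul (by positivity), ← ENNReal.ofReal_add (by positivity) (by positivity),
    ← ENNReal.ofReal_mul (by positivity)]
  apply ENNReal.ofReal_le_ofReal
  have h5 : (r ^ 2 * Real.sin η)⁻¹ * m ≤ ε ^ 2 / 8 := by
    rw [inv_mul_le_iff₀ hc]
    have h6 : Real.sin η ≤ r ^ 2 * Real.sin η := by
      have : (1 : ℝ) ≤ r ^ 2 := by nlinarith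
      nlinarith
    have h7 : ε ^ 2 * Real.sin η / 8 ≤ r ^ 2 * Real.sin η * (ε ^ 2 / 8) := by
      have : 0 ≤ ε ^ 2 / 8 := by positivity
      nlinarith
    linarith
  have h8 : 4 * η * (m * (2 * π)) ≤ ε ^ 2 / 4 * m := by
    have h9 : 4 * η * (2 * π) ≤ ε ^ 2 / 4 := by
      calc 4 * η * (2 * π) ≤ 4 * (ε ^ 2 / (32 * π)) * (2 * π) := by gcongr
        _ = ε ^ 2 / 4 := by field_simp; norm_num
    calc 4 * η * (m * (2 * π)) = 4 * η * (2 * π) * m := by ring
      _ ≤ _ := mul_le_mul_of_nonneg_right h9 hm0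
  have h10 : 2 * ((r ^ 2 * Real.sin η)⁻¹ * m ^ 2) ≤ ε ^ 2 / 4 * m := by
    calc 2 * ((r ^ 2 * Real.sin η)⁻¹ * m ^ 2) = 2 * ((r ^ 2 * Real.sin η)⁻¹ * m) * m := by ring
      _ ≤ 2 * (ε ^ 2 / 8) * m := by gcongr
      _ = _ := by ring
  calc ε / 2 * m + 1 / (2 * ε) * (2 * ((r ^ 2 * Real.sin η)⁻¹ * m ^ 2) + 4 * η * (m * (2 * π)))
      ≤ ε / 2 * m + 1 / (2 * ε) * (ε ^ 2 / 4 * m + ε ^ 2 / 4 * m) := by gcongr
    _ = (ε / 2 + ε / 4) * m := by field_simp; ring
    _ ≤ ε * m := by
        apply mul_le_mul_of_nonneg_right _ hm0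
        linarith

end Pool.MPb9430d.Rough
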