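import Pool.Agent.Lib.MP_b9430d_co.Lattice
import Pool.Agent.Lib.MP_b9430d_co.Rough.Near

/-!
# The difference of two close Steinhaus sets lives far away

If two measurable sets meet every congruent copy of the lattice in exactly `n` points and their
symmetric difference `U` has small measure, then a fixed part of `U` lies outside a given disc.
-/

open MeasureTheory Complex Set
open scoped ENNReal Real

namespace Pool.MPb9430d.Rough

/-- For every rotation, almost every translate of the rotated lattice meets `E` in exactly `n`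
points. -/
def Tile (E : Set ℂ) (n : ℕ) : Prop :=
  ∀ θ : ℝ, ∀ᵐ x : ℂ, {p : ℤ × ℤ | x + rot θ * lat p ∈ E}.encard = n

theorem tsum_ind (E : Set ℂ) (θ : ℝ) (x : ℂ) : ∑' p : ℤ × ℤ, ind E (x + rot θ * lat p) =
    (({p : ℤ × ℤ | x + rot θ * lat p ∈ E}.encard : ℕ∞) : ℝ≥0∞) := by
  rw [← ENNReal.tsum_set_one, tsum_subtype {p : ℤ × ℤ | x + rot θ * lat p ∈ E}
    (fun _ => (1 : ℝ≥0∞))]
  apply tsum_congr
  intro p
  by_cases h : x + rot θ * lat p ∈ E
  · rw [ind_of_mem h, indicator_of_mem (show p ∈ {p : ℤ × ℤ | x + rot θ * lat p ∈ E} from h)]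
  · rw [ind_of_notMem h, indicator_of_notMem (show p ∉ {p : ℤ × ℤ | x + rot θ * lat p ∈ E} from h)]

theorem tsum_ind_of_encard {E : Set ℂ} {θ : ℝ} {x : ℂ} {n : ℕ}
    (h : {p : ℤ × ℤ | x + rot θ * lat p ∈ E}.encard = n) :
    ∑' p : ℤ × ℤ, ind E (x + rot θ * lat p) = n := by
  rw [tsum_ind, h]
  simp

theorem lat_zero : lat 0 = 0 := by simp [lat]

theorem one_le_norm_lat {p : ℤ × ℤ} (hp : p ≠ 0) : 1 ≤ ‖lat p‖ := by
  have h : p.1 ≠ 0 ∨ p.2 ≠ 0 := by
    by_contra hcon
    push Not at hcon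
    exact hp (Prod.ext hcon.1 hcon.2)
  rcases h with h | h
  · have h1 := Complex.abs_re_le_norm (lat p)
    rw [lat_re] at h1
    have h2 : (1 : ℝ) ≤ |(p.1 : ℝ)| := by
      rw [← Int.cast_abs]; exact_mod_cast Int.one_le_abs h
    linarith
  · have h1 := Complex.abs_im_le_norm (lat p)
    rw [lat_im] at h1
    have h2 : (1 : ℝ) ≤ |(p.2 : ℝ)| := by
      rw [← Int.cast_abs]; exact_mod_cast Int.one_le_abs h
    linarith

theorem partner_aux {E E' : Set ℂ} {θ : ℝ} {x : ℂ} {n : ℕ}
    (h : {p : ℤ × ℤ | x + rot θ * lat p ∈ E}.encard = n)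
    (h' : {p : ℤ × ℤ | x + rot θ * lat p ∈ E'}.encard = n) (hx : x ∈ E) (hx' : x ∉ E') :
    ∃ p : ℤ × ℤ, p ≠ 0 ∧ x + rot θ * lat p ∈ E' ∧ x + rot θ * lat p ∉ E := by
  by_contra hcon
  push Not at hcon
  have hx0 : x + rot θ * lat 0 = x := by rw [lat_zero, mul_zero, add_zero]
  have hsub : {p : ℤ × ℤ | x + rot θ * lat p ∈ E'} ⊂ {p : ℤ × ℤ | x + rot θ * lat p ∈ E} := by
    refine ⟨fun p hp => ?_, fun hsub => hx' ?_⟩
    · apply hcon p _ hp
      rintro rfl
      apply hx'
      rwa [mem_ofPred_eq, hx0] at hp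
    · have h0 : (0 : ℤ × ℤ) ∈ {p : ℤ × ℤ | x + rot θ * lat p ∈ E} := by
        rw [mem_ofPred_eq, hx0]; exact hx
      have h1 := hsub h0
      rwa [mem_ofPred_eq, hx0] at h1
  have hfin : {p : ℤ × ℤ | x + rot θ * lat p ∈ E'}.Finite := by
    rw [← Set.encard_lt_top_iff, h']
    exact ENat.natCast_lt_top n
  have := hfin.encard_lt_encard hsub
  rw [h, h'] at this
  exact lt_irrefl _ this

theorem partner {E E' : Set ℂ} {θ : ℝ} {x : ℂ} {n : ℕ}
    (h : {p : ℤ × ℤ | x + rot θ * lat p ∈ E}.encard = n)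
    (h' : {p : ℤ × ℤ | x + rot θ * lat p ∈ E'}.encard = n) (hx : x ∈ symmDiff E E') :
    ∃ p : ℤ × ℤ, p ≠ 0 ∧ x + rot θ * lat p ∈ symmDiff E E' := by
  rcases hx with ⟨h1, h2⟩ | ⟨h1, h2⟩
  · obtain ⟨p, hp, h3, h4⟩ := partner_aux h h' h1 h2
    exact ⟨p, hp, Or.inr ⟨h3, h4⟩⟩
  · obtain ⟨p, hp, h3, h4⟩ := partner_aux h' h h1 h2
    exact ⟨p, hp, Or.inl ⟨h3, h4⟩⟩

theorem ind_symmDiff_le (E E' : Set ℂ) (x : ℂ) : ind (symmDiff E E') x ≤ ind E x + ind E' x := by
  by_cases h : x ∈ symmDiff E E'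
  · rw [ind_of_mem h]
    rcases h with h | h
    · rw [ind_of_mem h.1]; exact le_self_add
    · rw [ind_of_mem h.1]; exact le_add_self
  · rw [ind_of_notMem h]; exact zero_le

/-- A Steinhaus set has finite measure. -/
theorem volume_lt_top {E : Set ℂ} {n : ℕ} (hE : MeasurableSet E) (hT : Tile E n) :
    volume E < ∞ := by
  have hcov : E ⊆ ⋃ p : ℤ × ℤ, (fun x => x - lat p) ⁻¹'
      (Metric.closedBall 0 1 ∩ (fun w => w + lat p) ⁻¹' E) := by
    intro x hx
    obtain ⟨p, hp⟩ := exists_lat_near x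
    rw [mem_iUnion]
    refine ⟨p, ?_, ?_⟩
    · rw [mem_closedBall_zero_iff, norm_sub_rev]; exact hp
    · change x - lat p + lat p ∈ E
      rw [sub_add_cancel]; exact hx
  have hrot : rot 0 = 1 := by simp [rot]
  have h1 : ∀ p : ℤ × ℤ, volume ((fun x => x - lat p) ⁻¹'
      (Metric.closedBall 0 1 ∩ (fun w => w + lat p) ⁻¹' E)) =
      ∫⁻ w in Metric.closedBall (0 : ℂ) 1, ind E (w + rot 0 * lat p) := by
    intro p
    have hm : MeasurableSet ((fun w : ℂ => w + lat p) ⁻¹' E) :=
      hE.preimage (measurable_add_const _)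
    have h2 : (fun x : ℂ => x - lat p) = fun x => x + (-lat p) := by ext x; ring
    rw [h2, measure_preimage_add_right, hrot]
    have h3 : ∀ w : ℂ, ind E (w + 1 * lat p) = ((fun w : ℂ => w + lat p) ⁻¹' E).indicator 1 w := by
      intro w
      rw [one_mul]
      rfl
    rw [lintegral_congr h3, lintegral_indicator_one hm, Measure.restrict_apply hm, inter_comm]
  calc volume E ≤ volume (⋃ p : ℤ × ℤ, (fun x => x - lat p) ⁻¹'
        (Metric.closedBall 0 1 ∩ (fun w => w + lat p) ⁻¹' E)) := measure_mono hcov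
    _ ≤ ∑' p : ℤ × ℤ, volume ((fun x => x - lat p) ⁻¹'
        (Metric.closedBall 0 1 ∩ (fun w => w + lat p) ⁻¹' E)) := measure_iUnion_le _
    _ = ∑' p : ℤ × ℤ, ∫⁻ w in Metric.closedBall (0 : ℂ) 1, ind E (w + rot 0 * lat p) :=
        tsum_congr h1
    _ = ∫⁻ w in Metric.closedBall (0 : ℂ) 1, ∑' p : ℤ × ℤ, ind E (w + rot 0 * lat p) := by
        rw [lintegral_tsum]
        intro p
        exact ((measurable_ind hE).comp (measurable_add_const _)).aemeasurable
    _ = ∫⁻ w in Metric.closedBall (0 : ℂ) 1, (n : ℝ≥0∞) := by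
        apply lintegral_congr_ae
        exact ae_restrict_of_ae ((hT 0).mono (fun x hx => tsum_ind_of_encard hx))
    _ < ∞ := by
        rw [setLIntegral_const]
        exact ENNReal.mul_lt_top (ENNReal.natCast_lt_top n) measure_closedBall_lt_top

/-- A Steinhaus set with `n ≥ 1` is not a null set. -/
theorem volume_ne_zero {E : Set ℂ} {n : ℕ} (hn : 1 ≤ n) (hT : Tile E n) :
    volume E ≠ 0 := by
  intro h0
  have h1 : ∀ᵐ x : ℂ, ∀ p : ℤ × ℤ, x + rot 0 * lat p ∉ E := by
    rw [ae_all_iff]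
    intro p
    have h2 : volume ((fun x : ℂ => x + rot 0 * lat p) ⁻¹' E) = 0 := by
      rw [measure_preimage_add_right]; exact h0
    rw [ae_iff]
    convert h2 using 2
    ext x
    simp
  obtain ⟨x, hx1, hx2⟩ := (h1.and (hT 0)).exists
  have h3 : {p : ℤ × ℤ | x + rot 0 * lat p ∈ E} = ∅ := by
    ext p
    simp only [mem_ofPred_eq, mem_empty_iff_false, iff_false]
    exact hx1 p
  rw [h3, encard_empty] at hx2
  have : (0 : ℕ) = n := by exact_mod_cast hx2
  omega

/-- One rotation. -/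
theorem one_rotation {E E' : Set ℂ} {n : ℕ} (hE : MeasurableSet E) (hE' : MeasurableSet E')
    (hT : Tile E n) (hT' : Tile E' n) {R : ℝ} (F : Finset (ℤ × ℤ))
    (hF : ∀ p : ℤ × ℤ, p ≠ 0 → p ∉ F → 2 * R < ‖lat p‖) (θ : ℝ) :
    volume (symmDiff E E') ≤ ∑ p ∈ F, ov (symmDiff E E') (rot θ * lat p) +
      4 * n * volume (symmDiff E E' \ Metric.closedBall 0 R) := by
  set U := symmDiff E E' with hUdef
  set V := U \ Metric.closedBall (0 : ℂ) R with hVdef
  have hU : MeasurableSet U := hE.symmDiff hE'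
  have hV : MeasurableSet V := hU.diff Metric.isClosed_closedBall.measurableSet
  have hiU := measurable_ind hU
  have hiV := measurable_ind hV
  -- at most `2 n` points
  have hcnt : ∀ᵐ x : ℂ, ∑' p : ℤ × ℤ, ind U (x + rot θ * lat p) ≤ 2 * n := by
    filter_upwards [hT θ, hT' θ] with x hx hx'
    calc ∑' p : ℤ × ℤ, ind U (x + rot θ * lat p) ≤ ∑' p : ℤ × ℤ,
          (ind E (x + rot θ * lat p) + ind E' (x + rot θ * lat p)) :=
          ENNReal.tsum_le_tsum (fun p => ind_symmDiff_le E E' _)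
      _ = n + n := by rw [ENNReal.tsum_add, tsum_ind_of_encard hx, tsum_ind_of_encard hx']
      _ = 2 * n := by ring
  -- the pointwise inequality
  have hpt : ∀ᵐ x : ℂ, ind U x ≤ (∑ p ∈ F, ind U x * ind U (x + rot θ * lat p)) +
      ((ind V x * ∑' p : ℤ × ℤ, ind U (x + rot θ * lat p)) +
        ∑' p : ℤ × ℤ, ind U x * ind V (x + rot θ * lat p)) := by
    filter_upwards [hT θ, hT' θ] with x hx hx'
    by_cases hxU : x ∈ U
    · obtain ⟨p, hp0, hpU⟩ := partner hx hx' hxU
      by_cases hpF : p ∈ F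
      · refine le_trans ?_ le_self_add
        refine le_trans ?_ (Finset.single_le_sum (f := fun p => ind U x * ind U (x + rot θ * lat p))
          (fun i _ => zero_le) hpF)
        rw [ind_of_mem hxU, ind_of_mem hpU, one_mul]
      · refine le_trans ?_ le_add_self
        have hfar := hF p hp0 hpF
        by_cases hxR : x ∈ Metric.closedBall (0 : ℂ) R
        · refine le_trans ?_ le_add_self
          refine le_trans ?_ (ENNReal.le_tsum p)
          have hpV : x + rot θ * lat p ∈ V := by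
            refine ⟨hpU, ?_⟩
            rw [mem_closedBall_zero_iff] at hxR ⊢
            rw [not_le]
            have h1 : ‖rot θ * lat p‖ = ‖lat p‖ := by rw [norm_mul, norm_rot, one_mul]
            have h2 : ‖rot θ * lat p‖ ≤ ‖x + rot θ * lat p‖ + ‖x‖ := by
              have := norm_sub_le (x + rot θ * lat p) x
              rwa [add_sub_cancel_left] at this
            linarith
          rw [ind_of_mem hxU, ind_of_mem hpV, one_mul]
        · refine le_trans ?_ le_self_add
          have hxV : x ∈ V := ⟨hxU, hxR⟩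
          rw [ind_of_mem hxU, ind_of_mem hxV, one_mul]
          refine le_trans ?_ (ENNReal.le_tsum p)
          rw [ind_of_mem hpU]
    · rw [ind_of_notMem hxU]; exact zero_le
  -- integrate
  have hm1 : ∀ p : ℤ × ℤ, Measurable (fun x : ℂ => ind U (x + rot θ * lat p)) := fun p =>
    hiU.comp (measurable_add_const _)
  have hm2 : ∀ p : ℤ × ℤ, Measurable (fun x : ℂ => ind V (x + rot θ * lat p)) := fun p =>
    hiV.comp (measurable_add_const _)
  have hA : ∫⁻ x, ind V x * ∑' p : ℤ × ℤ, ind U (x + rot θ * lat p) ≤ 2 * n * volume V := by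
    calc ∫⁻ x, ind V x * ∑' p : ℤ × ℤ, ind U (x + rot θ * lat p) ≤
          ∫⁻ x, ind V x * (2 * n) := by
          apply lintegral_mono_ae
          filter_upwards [hcnt] with x hx
          gcongr
      _ = 2 * n * volume V := by
          rw [lintegral_mul_const _ hiV, lintegral_ind hV, mul_comm]
  have hB : ∫⁻ x, ∑' p : ℤ × ℤ, ind U x * ind V (x + rot θ * lat p) ≤ 2 * n * volume V := by
    calc ∫⁻ x, ∑' p : ℤ × ℤ, ind U x * ind V (x + rot θ * lat p) =
          ∑' p : ℤ × ℤ, ∫⁻ x, ind U x * ind V (x + rot θ * lat p) := by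
          rw [lintegral_tsum]
          intro p
          exact (hiU.mul (hm2 p)).aemeasurable
      _ = ∑' p : ℤ × ℤ, ∫⁻ x, ind V x * ind U (x + rot θ * lat (-p)) := by
          apply tsum_congr
          intro p
          rw [← lintegral_add_right_eq_self (fun x => ind V x * ind U (x + rot θ * lat (-p)))
            (rot θ * lat p)]
          apply lintegral_congr
          intro x
          rw [mul_comm, lat_neg]
          congr 2
          ring
      _ = ∑' p : ℤ × ℤ, ∫⁻ x, ind V x * ind U (x + rot θ * lat p) :=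
          (Equiv.neg (ℤ × ℤ)).tsum_eq (fun p => ∫⁻ x, ind V x * ind U (x + rot θ * lat p))
      _ = ∫⁻ x, ∑' p : ℤ × ℤ, ind V x * ind U (x + rot θ * lat p) := by
          rw [lintegral_tsum]
          intro p
          exact (hiV.mul (hm1 p)).aemeasurable
      _ = ∫⁻ x, ind V x * ∑' p : ℤ × ℤ, ind U (x + rot θ * lat p) := by
          apply lintegral_congr
          intro x
          rw [ENNReal.tsum_mul_left]
      _ ≤ _ := hA
  calc volume U = ∫⁻ x, ind U x := (lintegral_ind hU).symm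
    _ ≤ ∫⁻ x, ((∑ p ∈ F, ind U x * ind U (x + rot θ * lat p)) +
        ((ind V x * ∑' p : ℤ × ℤ, ind U (x + rot θ * lat p)) +
        ∑' p : ℤ × ℤ, ind U x * ind V (x + rot θ * lat p))) := lintegral_mono_ae hpt
    _ = (∑ p ∈ F, ov U (rot θ * lat p)) +
        ((∫⁻ x, ind V x * ∑' p : ℤ × ℤ, ind U (x + rot θ * lat p)) +
        ∫⁻ x, ∑' p : ℤ × ℤ, ind U x * ind V (x + rot θ * lat p)) := by
        rw [lintegral_add_left, lintegral_add_left, lintegral_finsetSum]
        · congr 1
          apply Finset.sum_congr rfl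
          intro p _
          rw [ov_eq hU]
        · intro p _
          exact hiU.mul (hm1 p)
        · exact hiV.mul (Measurable.tsum hm1)
        · exact Finset.measurable_fun_sum _ (fun p _ => hiU.mul (hm1 p))
    _ ≤ (∑ p ∈ F, ov U (rot θ * lat p)) + (2 * n * volume V + 2 * n * volume V) :=
        add_le_add le_rfl (add_le_add hA hB)
    _ = _ := by ring

/-- **Escape of the difference.** -/
theorem escape (n : ℕ) (R : ℝ) : ∃ η : ℝ, 0 < η ∧ ∀ E E' : Set ℂ, MeasurableSet E →
    MeasurableSet E' → Tile E n → Tile E' n → volume (symmDiff E E') < ENNReal.ofReal η →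
    volume (symmDiff E E') ≤ 8 * n * volume (symmDiff E E' \ Metric.closedBall 0 R) := by
  have hπ := Real.pi_pos
  set F : Finset (ℤ × ℤ) := (finite_lat (2 * R)).toFinset.erase 0 with hFdef
  have hF : ∀ p : ℤ × ℤ, p ≠ 0 → p ∉ F → 2 * R < ‖lat p‖ := by
    intro p hp hpF
    by_contra hcon
    push Not at hcon
    apply hpF
    rw [hFdef, Finset.mem_erase, Set.Finite.mem_toFinset]
    exact ⟨hp, hcon⟩
  have hF0 : ∀ p ∈ F, p ≠ 0 := fun p hp => (Finset.mem_erase.1 hp).1
  set ε : ℝ := π / (F.card + 1) with hε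
  have hε0 : 0 < ε := by positivity
  obtain ⟨δ, hδ, hnear⟩ := near hε0
  refine ⟨δ, hδ, ?_⟩
  intro E E' hE hE' hT hT' hsmall
  set U := symmDiff E E' with hUdef
  set V := U \ Metric.closedBall (0 : ℂ) R with hVdef
  have hU : MeasurableSet U := hE.symmDiff hE'
  have hUfin : volume U ≠ ∞ := (hsmall.trans ENNReal.ofReal_lt_top).ne
  have hVfin : volume V ≠ ∞ := ne_top_of_le_ne_top hUfin (measure_mono sdiff_subset)
  have hmain : ENNReal.ofReal (2 * π) * volume U ≤
      (∑ p ∈ F, ENNReal.ofReal ε * volume U) + ENNReal.ofReal (2 * π) * (4 * n * volume V) := by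
    have hvolI : volume (Ioc (-π) π) = ENNReal.ofReal (2 * π) := by
      rw [Real.volume_Ioc]; congr 1; ring
    calc ENNReal.ofReal (2 * π) * volume U = ∫⁻ _θ in Ioc (-π) π, volume U := by
          rw [setLIntegral_const, hvolI, mul_comm]
      _ ≤ ∫⁻ θ in Ioc (-π) π, ((∑ p ∈ F, ov U (rot θ * lat p)) + 4 * n * volume V) :=
          lintegral_mono (fun θ => one_rotation hE hE' hT hT' F hF θ)
      _ = (∑ p ∈ F, J U ‖lat p‖) + ENNReal.ofReal (2 * π) * (4 * n * volume V) := by
          have hmo : ∀ p : ℤ × ℤ, Measurable (fun θ : ℝ => ov U (rot θ * lat p)) := fun p =>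
            (measurable_ov hU).comp (measurable_rot.mul_const _)
          rw [lintegral_add_left, lintegral_finsetSum]
          · congr 1
            · apply Finset.sum_congr rfl
              intro p _
              exact lintegral_ov_rot U _
            · rw [setLIntegral_const, hvolI, mul_comm]
          · intro p _; exact hmo p
          · exact Finset.measurable_fun_sum _ (fun p _ => hmo p)
      _ ≤ _ := by
          gcongr with p hp
          exact hnear U hU hsmall _ (one_le_norm_lat (hF0 p hp))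
  -- numbers
  obtain ⟨a, ha0, hUa⟩ : ∃ a : ℝ, 0 ≤ a ∧ volume U = ENNReal.ofReal a :=
    ⟨_, ENNReal.toReal_nonneg, (ENNReal.ofReal_toReal hUfin).symm⟩
  obtain ⟨b, hb0, hVb⟩ : ∃ b : ℝ, 0 ≤ b ∧ volume V = ENNReal.ofReal b :=
    ⟨_, ENNReal.toReal_nonneg, (ENNReal.ofReal_toReal hVfin).symm⟩
  clear_value F
  have hn4 : (4 * n : ℝ≥0∞) = ENNReal.ofReal (4 * n) := by
    rw [ENNReal.ofReal_mul (by norm_num), ENNReal.ofReal_natCast]; norm_num
  have hn8 : (8 * n : ℝ≥0∞) = ENNReal.ofReal (8 * n) := by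
    rw [ENNReal.ofReal_mul (by norm_num), ENNReal.ofReal_natCast]; norm_num
  rw [Finset.sum_const, nsmul_eq_mul, hUa, hVb, hn4] at hmain
  rw [hUa, hVb, hn8, ← ENNReal.ofReal_mul (by positivity)]
  apply ENNReal.ofReal_le_ofReal
  have hcard : ((F.card : ℕ) : ℝ≥0∞) = ENNReal.ofReal (F.card : ℝ) := by
    rw [ENNReal.ofReal_natCast]
  rw [hcard, ← ENNReal.ofReal_mul (by positivity), ← ENNReal.ofReal_mul (by positivity),
    ← ENNReal.ofReal_mul (by positivity), ← ENNReal.ofReal_mul (by positivity),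
    ← ENNReal.ofReal_mul (by positivity), ← ENNReal.ofReal_add (by positivity) (by positivity),
    ENNReal.ofReal_le_ofReal_iff (by positivity)] at hmain
  have h1 : (F.card : ℝ) * (ε * a) ≤ π * a := by
    have h2 : (F.card : ℝ) * ε ≤ π := by
      rw [hε, mul_div_assoc', div_le_iff₀ (by positivity)]
      nlinarith
    calc (F.card : ℝ) * (ε * a) = (F.card : ℝ) * ε * a := by ring
      _ ≤ _ := mul_le_mul_of_nonneg_right h2 ha0
  have h3 : π * a ≤ π * (8 * n * b) := by nlinarith
  exact le_of_mul_le_mul_left h3 hπ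

end Pool.MPb9430d.Rough
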